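import Mathlib
import Pool.Agent.V11106.GM11

set_option autoImplicit false

open scoped Topology Manifold ContDiff Bundle
open Set Bundle Pool.Agent.V11106

noncomputable section

namespace Pool.Agent.Results.MP_d49e10_an.SectionalMetric

variable {E : Type*} [NormedAddCommGroup E] [NormedSpace ℝ E]
  {H : Type*} [TopologicalSpace H] {I : ModelWithCorners ℝ E H}
  {M : Type*} [TopologicalSpace M] [ChartedSpace H M]

/-- `p` is a continuous splitting of the tangent bundle over `Λ`, invariant under the derivatives
of the flow `φ`. It is given by the projections `p x` onto the first subbundle along the second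
one: the first subbundle is `{v | p x v = v}`, the second one is `{v | p x v = 0}`. -/
structure Splitting [IsManifold I 1 M] (φ : ℝ → M → M) (Λ : Set M)
    (p : ∀ x : M, TangentSpace I x →ₗ[ℝ] TangentSpace I x) : Prop where
  proj : ∀ x ∈ Λ, ∀ v, p x (p x v) = p x v
  inv : ∀ t, ∀ x ∈ Λ, ∀ v, p (φ t x) (mfderiv I I (φ t) x v) = mfderiv I I (φ t) x (p x v)
  cont : ContinuousOn (fun z : TangentBundle I M => (⟨z.1, p z.1 z.2⟩ : TangentBundle I M))
    (TotalSpace.proj ⁻¹' Λ)

theorem deriv_inj [IsManifold I 1 M] {φ : ℝ → M → M} (h : FlowC1 I φ) (t : ℝ) (x : M) :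
    Function.Injective (mfderiv I I (φ t) x) := by
  have h1 : φ (-t) ∘ φ t = (_root_.id : M → M) := by
    rw [← h.add', neg_add_cancel]
    exact funext h.zero
  have h2 : ∀ v, mfderiv I I (φ (-t)) (φ t x) (mfderiv I I (φ t) x v) = v := by
    intro v
    have e1 : mfderiv I I (φ (-t) ∘ φ t) x v =
        mfderiv I I (φ (-t)) (φ t x) (mfderiv I I (φ t) x v) := by
      rw [mfderiv_comp x ((h.smooth _).mdifferentiable one_ne_zero _)
        ((h.smooth _).mdifferentiable one_ne_zero _)]
      rfl
    have e2 : mfderiv I I (φ (-t) ∘ φ t) x = mfderiv I I (_root_.id : M → M) x := by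
      rw [h1]
    rw [← e1]
    have e3 := congrArg (fun f : TangentSpace I x →L[ℝ] TangentSpace I x => f v)
      (show mfderiv I I (_root_.id : M → M) x = _ from mfderiv_id)
    refine Eq.trans ?_ e3
    rw [e2]
    rfl
  intro v w hvw
  rw [← h2 v, ← h2 w]
  exact congrArg _ hvw

/-- **Adapted metrics for sectional-hyperbolic sets.** Let `φ` be a flow by `C^1` maps, with jointly
continuous derivative cocycle, of a smooth manifold, `Λ` a compact invariant set, `p` a continuous
invariant splitting over `Λ`. If the estimates of sectional hyperbolicity (domination, contraction,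
expansion of `k`-volumes) hold for some continuous Riemannian metric with constants `C, l > 0`, then
they hold for some continuous Riemannian metric with constants `1, l'`, for some `l' > 0`. -/
theorem result [FiniteDimensional ℝ E] [IsManifold I ∞ M] [T2Space M] [SigmaCompactSpace M]
    {φ : ℝ → M → M} (hφ : FlowC1 I φ) {Λ : Set M} (hΛ : IsCompact Λ)
    (hinv : ∀ t, MapsTo (φ t) Λ Λ)
    {p : ∀ x : M, TangentSpace I x →ₗ[ℝ] TangentSpace I x} (hp : Splitting φ Λ p)
    {k : ℕ} (g : ContinuousRiemannianMetric E (fun x : M => TangentSpace I x)) {C l : ℝ}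
    (hC : 0 < C) (hl : 0 < l) (h : SecHyp φ Λ p k g.inner C l) :
    ∃ g' : ContinuousRiemannianMetric E (fun x : M => TangentSpace I x), ∃ l' > 0,
      SecHyp φ Λ p k g'.inner 1 l' :=
  flow_adapted hΛ ⟨hφ, fun t => ⟨hφ.smooth t, hinv t, fun x _ => deriv_inj hφ t x, hp.inv t⟩,
    hp.proj⟩ hp.cont g hC hl h

end Pool.Agent.Results.MP_d49e10_an.SectionalMetric
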